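import Pool.Agent.helper30.QP.SpecK

set_option autoImplicit false

open Polynomial Pool.Agent.helper7.IG

noncomputable section

namespace Pool.Agent.QP

/-- the values of the modular functions -/
def POL_cl (Φ : Frame) : MM →+* Φ.A where
  toFun x := Φ.cl x.1
  map_one' := by
    have h := Φ.cl_alg 1
    rw [map_one, map_one] at h
    exact h
  map_mul' x y := Φ.cl_mul x.1 x.2 y.1 y.2
  map_zero' := by
    have h := Φ.cl_alg 0
    rw [map_zero, map_zero] at h
    exact h
  map_add' x y := Φ.cl_add x.1 x.2 y.1 y.2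

theorem POL (hME : ME_stmt) : POL_stmt := by
  classical
  intro Φ hF B y O hB hy hO
  have hch : CharP Φ.A 2 := charP_of_injective_algebraMap (algebraMap kk Φ.A).injective 2
  have hDD : DDk ∈ MM := by
    rw [mem_MM]
    exact isAlgebraic_algebraMap (⟨DDk, IntermediateField.mem_adjoin_simple_self kk DDk⟩ : IntermediateField.adjoin kk {DDk})
  have hK : ∀ z ∈ IntermediateField.adjoin kk {sig B 1 DDk}, z ∈ MM := by
    have h1 : IntermediateField.adjoin kk {sig B 1 DDk} ≤ MM :=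
      IntermediateField.adjoin_le_iff.2 (Set.singleton_subset_iff.2 (hME B 1 DDk hB hDD))
    exact fun z hz => h1 hz
  let f : Polynomial Φ.A := ∏ o ∈ O, (X - C o)
  have hfg : ∀ g : Φ.A ≃ₐ[kk] Φ.A, g (Φ.D (B, 1)) = Φ.D (B, 1) → f.map (g : Φ.A →+* Φ.A) = f := by
    intro g hg
    have himg : O.image g = O := by
      refine Finset.eq_of_subset_of_card_le ?_ ?_
      · intro o ho
        obtain ⟨o', ho', rfl⟩ := Finset.mem_image.1 ho
        obtain ⟨g', h1, h2⟩ := (hO o').1 ho'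
        refine (hO _).2 ⟨g * g', ?_, ?_⟩
        · rw [AlgEquiv.mul_apply, h1, hg]
        · rw [AlgEquiv.mul_apply, ← h2]
      · rw [Finset.card_image_of_injective _ g.injective]
    show (∏ o ∈ O, (X - C o)).map _ = ∏ o ∈ O, (X - C o)
    rw [Polynomial.map_prod]
    conv_rhs => rw [← himg, Finset.prod_image (fun a _ b _ h => g.injective h)]
    refine Finset.prod_congr rfl fun o _ => ?_
    rw [Polynomial.map_sub, Polynomial.map_X, Polynomial.map_C]
    rfl
  have hco : ∀ i, ∀ g : Φ.A ≃ₐ[kk] Φ.A, g (Φ.D (B, 1)) = Φ.D (B, 1) → g (f.coeff i) = f.coeff i := by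
    intro i g hg
    have h1 := congrArg (fun p : Polynomial Φ.A => p.coeff i) (hfg g hg)
    simp only [Polynomial.coeff_map] at h1
    exact h1
  choose s z hz hsz using fun i => hF B (f.coeff i) hB (hco i)
  let n := O.card
  let t : ℕ := ∑ i ∈ Finset.range (n + 1), s i
  have hst : ∀ i, i < n + 1 → s i ≤ t := fun i hi =>
    Finset.single_le_sum (f := fun i => s i) (fun _ _ => Nat.zero_le _) (Finset.mem_range.2 hi)
  let z' : ℕ → MM := fun i => ⟨z i, hK _ (hz i)⟩ ^ (2 ^ (t - s i))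
  have hz'K : ∀ i, ((z' i : MM) : LL) ∈ IntermediateField.adjoin kk {sig B 1 DDk} := by
    intro i
    show ((⟨z i, hK _ (hz i)⟩ ^ (2 ^ (t - s i)) : MM) : LL) ∈ _
    rw [SubmonoidClass.coe_pow]
    exact pow_mem (hz i) _
  have hz'c : ∀ i, i < n + 1 → POL_cl Φ (z' i) = f.coeff i ^ (2 ^ t) := by
    intro i hi
    show POL_cl Φ (⟨z i, hK _ (hz i)⟩ ^ (2 ^ (t - s i))) = _
    rw [map_pow]
    show (Φ.cl (z i)) ^ (2 ^ (t - s i)) = _
    rw [← hsz i, ← pow_mul, ← pow_add, Nat.add_sub_cancel' (hst i hi)]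
  have hfm : f.Monic := Polynomial.monic_prod_of_monic _ _ fun o _ => Polynomial.monic_X_sub_C o
  have hfd : f.natDegree = n := by
    show (∏ o ∈ O, (X - C o)).natDegree = n
    rw [Polynomial.natDegree_prod_of_monic _ _ fun o _ => Polynomial.monic_X_sub_C o]
    simp [n]
  let Q : Polynomial MM := ∑ i ∈ Finset.range (n + 1), C (z' i) * X ^ i
  have hQc : ∀ i, Q.coeff i = if i < n + 1 then z' i else 0 := by
    intro i
    show (∑ i ∈ Finset.range (n + 1), C (z' i) * X ^ i).coeff i = _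
    rw [Polynomial.finsetSum_coeff]
    simp only [Polynomial.coeff_C_mul_X_pow]
    rw [Finset.sum_ite_eq (Finset.range (n + 1)) i]
    simp only [Finset.mem_range]
  have hPc : ∀ i, (Q.map (algebraMap MM LL)).coeff i = if i < n + 1 then ((z' i : MM) : LL) else 0 := by
    intro i
    rw [Polynomial.coeff_map, hQc]
    split_ifs
    · rfl
    · exact map_zero _
  refine ⟨t, Q.map (algebraMap MM LL), ?_, ?_, ?_, ?_⟩
  · intro h0
    have h1 := hPc n
    rw [h0, Polynomial.coeff_zero, if_pos (Nat.lt_succ_self n)] at h1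
    have h2 : z' n = 0 := Subtype.ext h1.symm
    have h3 := hz'c n (Nat.lt_succ_self n)
    rw [h2, map_zero] at h3
    have h4 : f.coeff n = 1 := by
      rw [← hfd]
      exact hfm.coeff_natDegree
    rw [h4, one_pow] at h3
    exact zero_ne_one h3
  · rw [Polynomial.natDegree_le_iff_coeff_eq_zero]
    intro i hi
    rw [hPc, if_neg (by show ¬ i < O.card + 1; omega)]
  · intro i
    rw [hPc]
    split_ifs
    · exact hz'K i
    · exact zero_mem _
  · -- evaluation
    have h1 : (Q.map (algebraMap MM LL)).eval (y ^ (2 ^ t)) = ((Q.eval ((⟨y, hy⟩ : MM) ^ (2 ^ t)) : MM) : LL) := by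
      have h2 : y ^ (2 ^ t) = algebraMap MM LL ((⟨y, hy⟩ : MM) ^ (2 ^ t)) := by
        rw [map_pow]
        rfl
      rw [h2, Polynomial.eval_map_algebraMap, Polynomial.aeval_algebraMap_apply]
      rfl
    rw [h1]
    refine Φ.cl_inj _ (Subtype.property _) ?_
    show POL_cl Φ (Q.eval ((⟨y, hy⟩ : MM) ^ (2 ^ t))) = 0
    have h3 : Q.eval ((⟨y, hy⟩ : MM) ^ (2 ^ t)) = ∑ i ∈ Finset.range (n + 1), z' i * ((⟨y, hy⟩ : MM) ^ (2 ^ t)) ^ i := by
      show (∑ i ∈ Finset.range (n + 1), C (z' i) * X ^ i).eval _ = _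
      rw [Polynomial.eval_finsetSum]
      exact Finset.sum_congr rfl fun i _ => by rw [Polynomial.eval_mul, Polynomial.eval_C, Polynomial.eval_pow, Polynomial.eval_X]
    rw [h3, map_sum]
    have h4 : ∀ i ∈ Finset.range (n + 1), POL_cl Φ (z' i * ((⟨y, hy⟩ : MM) ^ (2 ^ t)) ^ i) = (f.coeff i * (Φ.cl y) ^ i) ^ (2 ^ t) := by
      intro i hi
      rw [map_mul, hz'c i (Finset.mem_range.1 hi), map_pow, map_pow, mul_pow]
      show f.coeff i ^ (2 ^ t) * ((Φ.cl y) ^ (2 ^ t)) ^ i = _
      rw [← pow_mul, ← pow_mul, mul_comm i]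
    rw [Finset.sum_congr rfl h4, ← sum_pow_char_pow 2 t]
    have h5 : ∑ i ∈ Finset.range (n + 1), f.coeff i * (Φ.cl y) ^ i = f.eval (Φ.cl y) := by
      rw [Polynomial.eval_eq_sum_range, hfd]
    have h6 : f.eval (Φ.cl y) = 0 := by
      show (∏ o ∈ O, (X - C o)).eval (Φ.cl y) = 0
      rw [Polynomial.eval_prod]
      have h7 : Φ.cl y ∈ O := (hO _).2 ⟨1, rfl, rfl⟩
      exact Finset.prod_eq_zero h7 (by rw [Polynomial.eval_sub, Polynomial.eval_X, Polynomial.eval_C, sub_self])
    rw [h5, h6]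
    exact zero_pow (pow_ne_zero _ two_ne_zero)

end Pool.Agent.QP
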