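import Pool.Agent.helper19.QP.SpecV

/-!
# QP, row PVB: basic values
-/

set_option autoImplicit false

open Finset

noncomputable section

namespace Pool.Agent.QP

open Pool.Agent.helper7.IG (kk LL sig DDk MM im2 ps Vx Nb Frame)
open Pool.Agent.LQ (FF DD)

theorem PVB (hUHD : UHD_stmt) : PVB_stmt := by
  intro N V hN hV hU
  have hD : sig N 1 DDk = sig N 1 UU * (sig N 1 UU + 1) ^ 3 := by
    have := congrArg (sig N 1) hUHD.1
    rw [map_mul, map_pow, map_add, map_one] at this
    exact this
  have hD3 : sig (3 * N) 1 DDk = sig N 1 UU ^ 3 * (sig N 1 UU + 1) := by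
    have := congrArg (sig N 1) hUHD.2
    rw [map_mul, map_pow, map_add, map_one, Pool.Agent.helper7.IG.sig_sig hN (by norm_num), one_pow, one_mul, mul_comm N 3] at this
    exact this
  have h1 : 1 < V.valuation (sig N 1 UU) := by
    rw [← not_le, V.valuation_le_one_iff]
    exact hU
  have h3 : V.valuation (sig N 1 UU + 1) = V.valuation (sig N 1 UU) := by
    apply Valuation.map_add_eq_of_lt_left
    rw [map_one]
    exact h1
  refine ⟨fun c hc => ?_, h1, ?_, ?_, hD, hD3⟩
  · have a1 : V.valuation (algebraMap kk LL c) ≤ 1 := (V.valuation_le_one_iff _).2 (hV c)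
    have a2 : V.valuation (algebraMap kk LL c⁻¹) ≤ 1 := (V.valuation_le_one_iff _).2 (hV c⁻¹)
    have a3 : V.valuation (algebraMap kk LL c) * V.valuation (algebraMap kk LL c⁻¹) = 1 := by
      rw [← map_mul, ← map_mul, mul_inv_cancel₀ hc, map_one, map_one]
    refine le_antisymm a1 ?_
    calc (1 : V.ValueGroup) = V.valuation (algebraMap kk LL c) * V.valuation (algebraMap kk LL c⁻¹) := a3.symm
      _ ≤ V.valuation (algebraMap kk LL c) * 1 := by gcongr
      _ = V.valuation (algebraMap kk LL c) := mul_one _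
  · rw [hD, map_mul, map_pow, h3, ← pow_succ']
  · rw [hD3, map_mul, map_pow, h3, ← pow_succ]

end Pool.Agent.QP
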