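import Pool.Agent.helper19.QP.SpecS
import Pool.Agent.helper7.EP.AllH
import Pool.Agent.helper92.TPC.TWD

/-!
# QP, row TJL: the Hecke operators on the powers of `jj`
-/

set_option autoImplicit false

open Finset

noncomputable section

namespace Pool.Agent.QP

open Pool.Agent.helper7.IG (kk LL sig DDk MM im2 ps Vx Nb Frame)
open Pool.Agent.LQ (FF DD)
open Pool.Agent.EP (KK ww vvx WW JG ac pp IsT)

theorem TJL_span (hJJ0 : JJ0_stmt) (b c : ℕ) (hb : 1 ≤ b) (hc : 3 ∣ c) (G : KK) (hG : G ∈ TPC.WC b c) :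
    ∃ g ∈ JS, ∀ M : ℤ, G.coeff M = if (3 : ℤ) ∣ M then g.coeff (M / 3) else 0 := by
  unfold TPC.WC at hG
  induction hG using Submodule.span_induction with
  | mem x hx =>
    obtain ⟨j, hj, hjc, rfl⟩ := hx
    obtain ⟨j', rfl⟩ : ∃ j', j = 3 * j' := ⟨j / 3, by omega⟩
    refine ⟨jj ^ j', Submodule.subset_span ⟨j', by omega, rfl⟩, fun M => ?_⟩
    exact hJJ0.2.2.2.2.1 j' M
  | zero => exact ⟨0, Submodule.zero_mem _, fun M => by simp⟩
  | add x y _ _ ihx ihy =>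
    obtain ⟨g, hg, h1⟩ := ihx
    obtain ⟨g', hg', h2⟩ := ihy
    refine ⟨g + g', Submodule.add_mem _ hg hg', fun M => ?_⟩
    rw [HahnSeries.coeff_add, h1, h2, HahnSeries.coeff_add]
    split_ifs
    · rfl
    · rw [add_zero]
  | smul a x _ ih =>
    obtain ⟨g, hg, h1⟩ := ih
    refine ⟨a • g, Submodule.smul_mem _ a hg, fun M => ?_⟩
    rw [HahnSeries.coeff_smul, h1, HahnSeries.coeff_smul]
    split_ifs
    · rfl
    · rw [smul_zero]

theorem TJL (hJJ0 : JJ0_stmt) : TJL_stmt := by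
  intro l i hl hl5 hi
  obtain ⟨G, hG, hT⟩ := TPC.TWD EP.all_HM EP.INT4 EP.CM2 EP.WM l (3 * i) hl hl5 (by omega)
  obtain ⟨g, hg, h1⟩ := TJL_span hJJ0 (3 * i) (l * (3 * i)) (by omega) ⟨l * i, by ring⟩ G hG
  refine ⟨g, hg, fun M => ?_⟩
  have h2 := hT (3 * M)
  rw [h1 (3 * M), if_pos (dvd_mul_right _ _), Int.mul_ediv_cancel_left _ (by norm_num)] at h2
  have h3 := hJJ0.2.2.2.2.1 i
  have hl3 : IsCoprime (l : ℤ) 3 := by
    have : Nat.Coprime l 3 := (Nat.coprime_primes hl Nat.prime_three).mpr (by omega)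
    exact_mod_cast Nat.isCoprime_iff_coprime.mpr this
  have hl0 : (l : ℤ) ≠ 0 := by
    have := hl.ne_zero
    exact_mod_cast this
  rw [h3, if_pos ⟨l * M, by ring⟩] at h2
  have e1 : (l : ℤ) * (3 * M) / 3 = l * M := by
    have : (l : ℤ) * (3 * M) = 3 * (l * M) := by ring
    rw [this, Int.mul_ediv_cancel_left _ (by norm_num)]
  rw [e1] at h2
  rw [h2]
  congr 1
  by_cases hd : (l : ℤ) ∣ M
  · obtain ⟨k, rfl⟩ := hd
    have e2 : (3 : ℤ) * (l * k) / l = 3 * k := by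
      have : (3 : ℤ) * (l * k) = l * (3 * k) := by ring
      rw [this, Int.mul_ediv_cancel_left _ hl0]
    rw [if_pos (Dvd.intro_left _ (by ring : (3 * k) * (l : ℤ) = 3 * (l * k))), if_pos (dvd_mul_right _ _), e2, h3,
      if_pos (dvd_mul_right _ _), Int.mul_ediv_cancel_left _ (by norm_num), Int.mul_ediv_cancel_left _ hl0]
  · rw [if_neg (fun h => hd (hl3.dvd_of_dvd_mul_left h)), if_neg hd]

end Pool.Agent.QP
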